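import Pool.Agent.Y57.FD.Tup0
import Pool.Agent.Y57.FD.HypM

/-!
# Means of products of functions of disjoint groups of variables
-/

set_option autoImplicit false

namespace Pool.Agent.V11210.FD

open Finset
open Pool.Agent.TH894.NE (mean box mem_box)

/-- the variables of the group `l` -/
def part {s : ℕ} {d : Fin s → ℕ} (n : Fin (∑ l, d l) → ℕ) (l : Fin s) : Fin (d l) → ℕ :=
  fun i => n (finSigmaFinEquiv ⟨l, i⟩)

/-- the mean of a product over disjoint groups of variables -/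
theorem mean_part {s : ℕ} (d : Fin s → ℕ) (q : ℕ) (F : (l : Fin s) → (Fin (d l) → ℕ) → ℝ) :
    mean (∑ l, d l) q (fun n => ∏ l, F l (part n l)) = ∏ l, mean (d l) q (F l) := by
  classical
  unfold mean
  rw [prod_mul_distrib, prod_univ_sum]
  congr 1
  · rw [prod_div_distrib, prod_const_one, ← prod_pow_eq_pow_sum]
  · refine sum_nbij' (fun n l => part n l) (fun u i => u (finSigmaFinEquiv.symm i).1 (finSigmaFinEquiv.symm i).2)
      ?_ ?_ ?_ ?_ ?_
    · intro n hn
      rw [mem_box] at hn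
      rw [Fintype.mem_piFinset]
      intro l
      rw [mem_box]
      intro i
      exact hn _
    · intro u hu
      rw [Fintype.mem_piFinset] at hu
      rw [mem_box]
      intro i
      exact mem_box.1 (hu _) _
    · intro n _
      funext i
      show n (finSigmaFinEquiv ⟨(finSigmaFinEquiv.symm i).1, (finSigmaFinEquiv.symm i).2⟩) = n i
      congr 1
      exact finSigmaFinEquiv.apply_symm_apply i
    · intro u _
      funext l i
      show u (finSigmaFinEquiv.symm (finSigmaFinEquiv ⟨l, i⟩)).1 (finSigmaFinEquiv.symm (finSigmaFinEquiv ⟨l, i⟩)).2 = u l i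
      rw [finSigmaFinEquiv.symm_apply_apply]
    · intro n _
      rfl

/-- products of quantities with relative errors `O(1 / p)` -/
theorem prod_close {ι : Type} (S : Finset ι) (x : ι → ℕ → ℝ) (M C : ι → ℝ) (hC : ∀ l ∈ S, 0 ≤ C l)
    (h : ∀ l ∈ S, ∀ p : ℕ, p.Prime → |x l p - M l| ≤ C l / p) :
    ∃ C' : ℝ, 0 ≤ C' ∧ ∀ p : ℕ, p.Prime → |∏ l ∈ S, x l p - ∏ l ∈ S, M l| ≤ C' / p := by
  classical
  induction S using Finset.induction_on with
  | empty => exact ⟨0, le_rfl, fun p hp => by simp⟩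
  | insert a S ha ih =>
    obtain ⟨C', hC'0, hC'⟩ := ih (fun l hl => hC l (mem_insert_of_mem hl)) (fun l hl => h l (mem_insert_of_mem hl))
    have hCa := hC a (mem_insert_self _ _)
    have hMS : 0 ≤ |∏ l ∈ S, M l| := abs_nonneg _
    refine ⟨(|M a| + C a) * C' + C a * |∏ l ∈ S, M l|, by positivity, fun p hp => ?_⟩
    rw [prod_insert ha, prod_insert ha]
    have hp1 : (1 : ℝ) ≤ p := by exact_mod_cast hp.one_lt.le
    have hp0 : (0 : ℝ) < p := by linarith
    have h1 := h a (mem_insert_self _ _) p hp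
    have h2 := hC' p hp
    have hx : |x a p| ≤ |M a| + C a := by
      have h3 : |x a p| ≤ |x a p - M a| + |M a| := by
        have := abs_add_le (x a p - M a) (M a)
        simpa using this
      have h4 : C a / p ≤ C a := div_le_self hCa hp1
      linarith
    have h5 : x a p * ∏ l ∈ S, x l p - M a * ∏ l ∈ S, M l =
        x a p * (∏ l ∈ S, x l p - ∏ l ∈ S, M l) + (x a p - M a) * ∏ l ∈ S, M l := by ring
    rw [h5]
    refine (abs_add_le _ _).trans ?_
    rw [abs_mul, abs_mul, add_div]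
    refine add_le_add ?_ ?_
    · calc |x a p| * |∏ l ∈ S, x l p - ∏ l ∈ S, M l| ≤ (|M a| + C a) * (C' / p) :=
          mul_le_mul hx h2 (abs_nonneg _) (by positivity)
        _ = (|M a| + C a) * C' / p := by ring
    · calc |x a p - M a| * |∏ l ∈ S, M l| ≤ C a / p * |∏ l ∈ S, M l| := mul_le_mul_of_nonneg_right h1 hMS
        _ = C a * |∏ l ∈ S, M l| / p := by ring

/-- the joint local moments of the traces -/
theorem joint_mean {s : ℕ} (g j : Fin s → ℕ) (hj : ∀ l, j l ≤ 2 * g l + 3) : ∃ C : ℝ, 0 ≤ C ∧ ∀ p : ℕ, p.Prime →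
    |mean (∑ l, (2 * g l + 1)) p (fun n => ∏ l, Pool.Agent.Y57.FD.HM.tr (g l) p (part (d := fun l => 2 * g l + 1) n l) ^ j l) -
      ∏ l, Pool.Agent.Y57.FD.Mom.usp (g l) (j l)| ≤ C / p := by
  have h1 : ∀ l, ∃ C : ℝ, 0 ≤ C ∧ ∀ p : ℕ, p.Prime →
      |mean (2 * g l + 1) p (fun n => Pool.Agent.Y57.FD.HM.tr (g l) p n ^ j l) - Pool.Agent.Y57.FD.Mom.usp (g l) (j l)| ≤ C / p :=
    fun l => Pool.Agent.Y57.FD.HM.tr_mean (g l) (j l) (hj l)
  choose C hC0 hC using h1
  obtain ⟨C', hC'0, hC'⟩ := prod_close univ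
    (fun l p => mean (2 * g l + 1) p (fun n => Pool.Agent.Y57.FD.HM.tr (g l) p n ^ j l))
    (fun l => Pool.Agent.Y57.FD.Mom.usp (g l) (j l)) C (fun l _ => hC0 l) (fun l _ p hp => hC l p hp)
  refine ⟨C', hC'0, fun p hp => ?_⟩
  have h2 := hC' p hp
  rw [← mean_part (fun l => 2 * g l + 1) p (fun l n => Pool.Agent.Y57.FD.HM.tr (g l) p n ^ j l)] at h2
  exact h2

end Pool.Agent.V11210.FD
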